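import Mathlib
import Pool.Agent.W743.GV.Stm

/-! GV-PDE: the flow equations. -/

open Set
open scoped ContDiff

namespace Pool.Agent.W103.GV

open Pool.Agent.W743.GV

theorem grad_coord {p : E3 → ℝ} {x : E3} {L : E3 →L[ℝ] ℝ} (h : HasFDerivAt p L x) (i : Fin 3) :
    (gradient p x) i = L (EuclideanSpace.single i 1) := by
  have h1 : inner ℝ (gradient p x) (EuclideanSpace.single i (1 : ℝ)) =
      L (EuclideanSpace.single i 1) := by
    unfold gradient
    rw [InnerProductSpace.toDual_symm_apply, h.fderiv]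
  rw [← h1, real_inner_comm, EuclideanSpace.inner_single_left]
  simp

theorem grad_inner {p : E3 → ℝ} {x : E3} {L : E3 →L[ℝ] ℝ} (h : HasFDerivAt p L x) (v : E3) :
    inner ℝ v (gradient p x) = L v := by
  unfold gradient
  rw [real_inner_comm, InnerProductSpace.toDual_symm_apply, h.fderiv]

theorem t_PDE (hDU : S_DU) (hMOM : S_MOM) (hDIV : S_DIV) : S_PDE := by
  intro d b f U p hD hS x hx
  obtain ⟨d0, d1, d2⟩ := hDU d b f U p hD hS x hx
  obtain ⟨m0, m1, m2, m3⟩ := hMOM d b f hD x (p x) (hS.sJ x hx) (hS.pJ x hx)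
  have dv := hDIV d b f hD x (p x) (hS.sJ x hx) (hS.pJ x hx)
  have hp := hS.dp x hx
  set u : E3 → E3 := fun y : E3 => VV b f y (p y) with hu
  have hdiff : DifferentiableAt ℝ u x := by
    rw [differentiableAt_euclidean]
    intro i
    fin_cases i
    · exact d0.differentiableAt
    · exact d1.differentiableAt
    · exact d2.differentiableAt
  have hc : ∀ i : Fin 3, HasFDerivAt (fun y : E3 => (u y) i)
      ((EuclideanSpace.proj i : E3 →L[ℝ] ℝ).comp (fderiv ℝ u x)) x := fun i =>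
    (EuclideanSpace.proj i : E3 →L[ℝ] ℝ).hasFDerivAt.comp x hdiff.hasFDerivAt
  have c0 : ∀ v, (fderiv ℝ u x v) 0 = L0 b f x (p x) v := fun v =>
    congrArg (fun L : E3 →L[ℝ] ℝ => L v) ((hc 0).unique d0)
  have c1 : ∀ v, (fderiv ℝ u x v) 1 = L1 b f x (p x) v := fun v =>
    congrArg (fun L : E3 →L[ℝ] ℝ => L v) ((hc 1).unique d1)
  have c2 : ∀ v, (fderiv ℝ u x v) 2 = L2 b f x (p x) v := fun v =>
    congrArg (fun L : E3 →L[ℝ] ℝ => L v) ((hc 2).unique d2)
  refine ⟨?_, ?_, ?_, ?_⟩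
  · ext i
    fin_cases i
    · show (fderiv ℝ u x (VV b f x (p x))) 0 + (gradient p x) 0 = 0
      rw [c0, grad_coord hp]
      exact m0
    · show (fderiv ℝ u x (VV b f x (p x))) 1 + (gradient p x) 1 = 0
      rw [c1, grad_coord hp]
      exact m1
    · show (fderiv ℝ u x (VV b f x (p x))) 2 + (gradient p x) 2 = 0
      rw [c2, grad_coord hp]
      exact m2
  · rw [Fin.sum_univ_three, c0, c1, c2]
    exact dv
  · rw [grad_inner hp]
    exact m3
  · intro h0
    have h1 := grad_coord hp 2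
    rw [h0] at h1
    have hM := hD.Mpos (ss x) (hS.sJ x hx) (p x) (hS.pJ x hx)
    have h2 : Lp b f x (p x) (EuclideanSpace.single 2 1) = 2 * √(MM b f (ss x) (p x)) := by
      unfold Lp lf
      simp
    rw [h2] at h1
    have h3 : 0 < √(MM b f (ss x) (p x)) := Real.sqrt_pos.2 hM
    have h4 : (0 : E3) 2 = 0 := rfl
    rw [h4] at h1
    linarith

end Pool.Agent.W103.GV
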